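import Pool.Agent.W747.MB.Defs
import Pool.Agent.H749R2.Hyp2

set_option autoImplicit false
open Metric MeasureTheory Set

namespace Pool.Agent.W685.MB.Fin1
open Pool.Agent.W747.MB

/-- Upper bound for `Y` at nearby points. -/
theorem Y_up {n : ℕ} (hn : 2 ≤ n) {c c₀ : ℂ} (h : ‖c - c₀‖ ≤ ‖c₀‖ / n) : Y n c ≤ 3 * Y n c₀ := by
  have hn0 : (0:ℝ) < n := by have : (2:ℝ) ≤ n := by exact_mod_cast hn
                             linarith
  have h1 : ‖c‖ ≤ ‖c₀‖ * (1 + 1 / n) := by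
    have : ‖c‖ ≤ ‖c₀‖ + ‖c - c₀‖ := by
      calc ‖c‖ = ‖c₀ + (c - c₀)‖ := by congr 1; ring
        _ ≤ _ := norm_add_le _ _
    have e : ‖c₀‖ * (1 + 1 / n) = ‖c₀‖ + ‖c₀‖ / n := by ring
    linarith
  have h2 : ‖c‖ ^ (n - 1) ≤ ‖c₀‖ ^ (n - 1) * (1 + 1 / n) ^ (n - 1) := by
    rw [← mul_pow]; gcongr
  have h3 : (1 + 1 / (n:ℝ)) ^ (n - 1) ≤ 3 := by
    have := Pool.Agent.H749R2.Hyp.one_add_div_pow_le (n := n) (θ := 1) (by omega) (by norm_num)
      (k := n - 1) (by omega)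
    have he := Real.exp_one_lt_d9
    linarith
  unfold Y
  have h4 : (0:ℝ) ≤ ‖c₀‖ ^ (n - 1) := by positivity
  nlinarith [mul_le_mul_of_nonneg_left h3 h4]

/-- Lower bound for `Y` at nearby points. -/
theorem Y_down {n : ℕ} (hn : 2 ≤ n) {c c₀ : ℂ} (h : ‖c - c₀‖ ≤ ‖c₀‖ / n) : Y n c₀ ≤ 3 * Y n c := by
  have hn2 : (2:ℝ) ≤ n := by exact_mod_cast hn
  have hn0 : (0:ℝ) < n := by linarith
  have h1 : ‖c₀‖ * (1 - 1 / n) ≤ ‖c‖ := by
    have : ‖c₀‖ ≤ ‖c‖ + ‖c - c₀‖ := by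
      calc ‖c₀‖ = ‖c + -(c - c₀)‖ := by congr 1; ring
        _ ≤ ‖c‖ + ‖-(c - c₀)‖ := norm_add_le _ _
        _ = _ := by rw [norm_neg]
    have e : ‖c₀‖ * (1 - 1 / n) = ‖c₀‖ - ‖c₀‖ / n := by ring
    linarith
  have h5 : (0:ℝ) < n - 1 := by linarith
  have e1 : ‖c₀‖ ≤ ‖c‖ * (1 + 1 / ((n - 1 : ℕ) : ℝ)) := by
    rw [Nat.cast_sub (by omega : 1 ≤ n), Nat.cast_one]
    have e2 : (1 - 1 / (n:ℝ)) * (1 + 1 / ((n:ℝ) - 1)) = 1 := by
      field_simp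
      ring
    calc ‖c₀‖ = ‖c₀‖ * (1 - 1 / n) * (1 + 1 / ((n:ℝ) - 1)) := by rw [mul_assoc, e2, mul_one]
      _ ≤ _ := by
        apply mul_le_mul_of_nonneg_right h1
        positivity
  have h2 : ‖c₀‖ ^ (n - 1) ≤ ‖c‖ ^ (n - 1) * (1 + 1 / ((n - 1 : ℕ) : ℝ)) ^ (n - 1) := by
    rw [← mul_pow]; gcongr
  have h3 : (1 + 1 / ((n - 1 : ℕ):ℝ)) ^ (n - 1) ≤ 3 := by
    have := Pool.Agent.H749R2.Hyp.one_add_div_pow_le (n := n - 1) (θ := 1) (by omega) (by norm_num)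
      (k := n - 1) (by omega)
    have he := Real.exp_one_lt_d9
    linarith
  unfold Y
  have h4 : (0:ℝ) ≤ ‖c‖ ^ (n - 1) := by positivity
  nlinarith [mul_le_mul_of_nonneg_left h3 h4]

theorem L_one (n : ℕ) (c : ℂ) : L n c 1 = (n - 1) / c := by
  simp [L, X]

theorem Y_le {n : ℕ} (hn : 2 ≤ n) {c : ℂ} (hc : c ∈ Bad n) : Y n c ≤ 2 * n := by
  have := Pool.Agent.H749R2.Hyp.t_le_two hn hc.1
  unfold Y
  have hn0 : (0:ℝ) ≤ n := by positivity
  nlinarith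

theorem norm_L_one {n : ℕ} (hn : 2 ≤ n) (c : ℂ) : ‖L n c 1‖ = ((n:ℝ) - 1) / ‖c‖ := by
  have hn2 : (2:ℝ) ≤ n := by exact_mod_cast hn
  rw [L_one, norm_div]
  congr 1
  have : ((n:ℂ) - 1) = (((n:ℝ) - 1 : ℝ) : ℂ) := by push_cast; ring
  rw [this, Complex.norm_real, Real.norm_of_nonneg (by linarith)]

theorem dd_one {n : ℕ} (hn : 2 ≤ n) {c : ℂ} :
    dd n c 1 = closedBall c (5 * (‖c‖ / (1000 * ((n:ℝ) - 1)))) := by
  have hn2 : (2:ℝ) ≤ n := by exact_mod_cast hn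
  have h5 : (n:ℝ) - 1 ≠ 0 := by linarith
  unfold dd
  rw [norm_L_one hn]
  congr 1
  rcases eq_or_ne ‖c‖ 0 with h | h
  · simp [h]
  · field_simp
    ring

/-- no bad point in the small disc when `Y` is large. -/
theorem empty_of_gt {n : ℕ} (hn : 10 ^ 6 ≤ n) {x : ℂ} (hx : 3 * (n:ℝ) < Y n x) :
    Bad n ∩ dd n x 1 = ∅ := by
  have hn2 : (10:ℝ) ^ 6 ≤ n := by exact_mod_cast hn
  have hn0 : (0:ℝ) < n := by linarith
  have hn1 : (0:ℝ) < (n:ℝ) - 1 := by linarith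
  rw [Set.eq_empty_iff_forall_notMem]
  rintro c ⟨hc, hcd⟩
  rw [dd_one (by omega), mem_closedBall, dist_eq_norm] at hcd
  have h1 : ‖x‖ * (1 - 1 / (200 * ((n:ℝ) - 1))) ≤ ‖c‖ := by
    have : ‖x‖ ≤ ‖c‖ + ‖c - x‖ := by
      calc ‖x‖ = ‖c + -(c - x)‖ := by congr 1; ring
        _ ≤ ‖c‖ + ‖-(c - x)‖ := norm_add_le _ _
        _ = _ := by rw [norm_neg]
    have e : ‖x‖ * (1 - 1 / (200 * ((n:ℝ) - 1))) = ‖x‖ - 5 * (‖x‖ / (1000 * ((n:ℝ) - 1))) := by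
      field_simp; ring
    linarith
  have hb : (0:ℝ) ≤ 1 - 1 / (200 * ((n:ℝ) - 1)) := by
    have : 1 / (200 * ((n:ℝ) - 1)) ≤ 1 := by
      rw [div_le_one (by positivity)]; linarith
    linarith
  have h2 : ‖x‖ ^ (n - 1) * (1 - 1 / (200 * ((n:ℝ) - 1))) ^ (n - 1) ≤ ‖c‖ ^ (n - 1) := by
    rw [← mul_pow]
    gcongr
  have h3 : (199 / 200 : ℝ) ≤ (1 - 1 / (200 * ((n:ℝ) - 1))) ^ (n - 1) := by
    have := one_add_mul_le_pow (a := - (1 / (200 * ((n:ℝ) - 1)))) (by linarith) (n - 1)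
    rw [Nat.cast_sub (by omega : 1 ≤ n), Nat.cast_one] at this
    have e : 1 + ((n:ℝ) - 1) * -(1 / (200 * ((n:ℝ) - 1))) = 199 / 200 := by field_simp; ring
    rw [e] at this
    rw [sub_eq_add_neg]
    exact this
  have h4 := Y_le (by omega) hc
  have h5 : (0:ℝ) ≤ ‖x‖ ^ (n - 1) := by positivity
  have h6 : (199 / 200 : ℝ) * ‖x‖ ^ (n - 1) ≤ ‖c‖ ^ (n - 1) := by nlinarith
  unfold Y at h4 hx
  nlinarith

theorem vol_scale (c : ℂ) (r : ℝ) (k : ℝ) (hk : 0 ≤ k) :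
    volume (closedBall c (k * r)) = ENNReal.ofReal (k ^ 2) * volume (closedBall c r) := by
  rw [Complex.volume_closedBall, Complex.volume_closedBall, ENNReal.ofReal_mul hk, mul_pow,
    ENNReal.ofReal_pow hk, mul_assoc]

theorem main (_hL : P_ALV) (_hB : P_BAS) (hV : P_VIT) (hO : P_LOC) : P_FIN1 := by
  obtain ⟨C₂, hC₂, hO⟩ := hO
  refine ⟨10 ^ 21 + 900 * C₂, by positivity, ?_⟩
  intro n hn c₀ hY
  have hn2 : (2:ℝ) ≤ n := by exact_mod_cast hn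
  have hn0 : (0:ℝ) < n := by linarith
  have hY0 : 0 < Y n c₀ := by linarith
  have hlog : 0 ≤ Real.log (Y n c₀) := Real.log_nonneg hY
  by_cases hs : Y n c₀ ≤ 10 ^ 21
  · calc volume (Bad n ∩ closedBall c₀ (‖c₀‖ / n)) ≤ volume (closedBall c₀ (‖c₀‖ / n)) :=
          measure_mono inter_subset_right
      _ = 1 * volume (closedBall c₀ (‖c₀‖ / n)) := (one_mul _).symm
      _ ≤ _ := by
        gcongr
        rw [ENNReal.one_le_ofReal, le_div_iff₀ hY0]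
        nlinarith
  push Not at hs
  by_cases hn6 : n < 10 ^ 6
  · have : Bad n ∩ closedBall c₀ (‖c₀‖ / n) = ∅ := by
      rw [Set.eq_empty_iff_forall_notMem]
      rintro c ⟨hc, hcd⟩
      rw [mem_closedBall, dist_eq_norm] at hcd
      have h1 := Y_down hn hcd
      have h2 := Y_le hn hc
      have h3 : (n:ℝ) < 10 ^ 6 := by exact_mod_cast hn6
      linarith
    rw [this, measure_empty]
    exact zero_le
  push Not at hn6
  have hn6' : (10:ℝ) ^ 6 ≤ n := by exact_mod_cast hn6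
  have hn1 : (0:ℝ) < (n:ℝ) - 1 := by linarith
  set F : ℝ := 225 * C₂ * (1 + Real.log (Y n c₀)) / Y n c₀ with hF
  have hF0 : 0 ≤ F := by positivity
  have key := hV (closedBall c₀ (‖c₀‖ / n)) (closedBall c₀ (2 * (‖c₀‖ / n))) (Bad n)
    (fun x => ‖x‖ / (1000 * ((n:ℝ) - 1))) (‖c₀‖ / n) F hF0 ?_
  · rw [vol_scale _ _ _ (by norm_num), ← mul_assoc, ← ENNReal.ofReal_mul hF0] at key
    refine key.trans ?_
    apply mul_le_mul_left
    apply ENNReal.ofReal_le_ofReal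
    rw [hF, div_mul_eq_mul_div]
    apply div_le_div_of_nonneg_right _ hY0.le
    nlinarith [mul_nonneg hC₂.le hlog]
  intro x hx
  rw [mem_closedBall, dist_eq_norm] at hx
  have hc0 : 0 < ‖c₀‖ := by
    rcases (norm_nonneg c₀).lt_or_eq with h | h
    · exact h
    · exfalso
      unfold Y at hY0
      rw [← h, zero_pow (by omega), mul_zero] at hY0
      exact lt_irrefl _ hY0
  have hup := Y_up hn hx
  have hdown := Y_down hn hx
  have hxle : ‖x‖ ≤ 2 * ‖c₀‖ := by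
    have h1 : ‖x‖ ≤ ‖c₀‖ + ‖x - c₀‖ := by
      calc ‖x‖ = ‖c₀ + (x - c₀)‖ := by congr 1; ring
        _ ≤ _ := norm_add_le _ _
    have h2 : ‖c₀‖ / n ≤ ‖c₀‖ := div_le_self hc0.le (by linarith)
    linarith
  have hYx : 0 < Y n x := by linarith
  have hx0 : 0 < ‖x‖ := by
    rcases (norm_nonneg x).lt_or_eq with h | h
    · exact h
    · exfalso
      unfold Y at hYx
      rw [← h, zero_pow (by omega), mul_zero] at hYx
      exact lt_irrefl _ hYx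
  have hr : ‖x‖ / (1000 * ((n:ℝ) - 1)) ≤ ‖c₀‖ / n := by
    rw [div_le_div_iff₀ (by positivity) hn0]
    nlinarith
  refine ⟨by positivity, hr, ?_, ?_⟩
  · intro y hy
    rw [mem_closedBall, dist_eq_norm] at hy ⊢
    calc ‖y - c₀‖ = ‖(y - x) + (x - c₀)‖ := by congr 1; ring
      _ ≤ ‖y - x‖ + ‖x - c₀‖ := norm_add_le _ _
      _ ≤ _ := by linarith
  · show volume (Bad n ∩ closedBall x (5 * (‖x‖ / (1000 * ((n:ℝ) - 1))))) ≤ _
    rw [← dd_one hn]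
    by_cases h3 : 3 * (n:ℝ) < Y n x
    · rw [empty_of_gt hn6 h3, measure_empty]
      exact zero_le
    push Not at h3
    refine (hO n hn6 x (by linarith) h3).trans ?_
    rw [dd_one hn, vol_scale _ _ _ (by norm_num), ← mul_assoc,
      ← ENNReal.ofReal_mul (by
        have : 0 ≤ Real.log (Y n x) := Real.log_nonneg (by linarith)
        positivity)]
    apply mul_le_mul_left
    apply ENNReal.ofReal_le_ofReal
    have hl : Real.log (Y n x) ≤ 2 + Real.log (Y n c₀) := by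
      calc Real.log (Y n x) ≤ Real.log (3 * Y n c₀) := Real.log_le_log hYx hup
        _ = Real.log 3 + Real.log (Y n c₀) := Real.log_mul (by norm_num) hY0.ne'
        _ ≤ _ := by
          have : Real.log 3 ≤ 3 - 1 := Real.log_le_sub_one_of_pos (by norm_num)
          linarith
    rw [hF, div_mul_eq_mul_div, div_le_div_iff₀ hYx hY0]
    have hl2 : 1 + Real.log (Y n x) ≤ 3 * (1 + Real.log (Y n c₀)) := by linarith
    calc C₂ * (1 + Real.log (Y n x)) * 5 ^ 2 * Y n c₀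
        ≤ C₂ * (3 * (1 + Real.log (Y n c₀))) * 5 ^ 2 * (3 * Y n x) := by gcongr
      _ = _ := by ring

end Pool.Agent.W685.MB.Fin1
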